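import Mathlib
import Pool.Agent.Q278.RS.Nice

/-!
# Weighted sums of squares of `R_{n,r}` modulo `n`

For every `r` there is a nonzero integer `a`, depending only on `r`, such that
`a ∑_{k < n} (2k+1) R_{k,r}²` is divisible by `n` for all `n ≥ 1`.

Proof. Let `B(r,s) = ∑_{k<n} (2k+1) R_{k,r} R_{k,s}`, for all integers `r, s`, and let
`δ(s), δ'(s)` be the same sums with the Delannoy numbers `D_k` (and `D'_k = ∑ j C(k+j,2j) C(2j,j)`)
in place of `R_{k,r}`. The three-term recurrences give telescoping sums: `B(r-1,s) - B(r,s-1)`,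
`δ(s) - δ(s-1)` and `δ(s) + δ'(s) - δ'(s-1)` are half of `n (u_n v_{n-1} - u_{n-1} v_n)`. The
differential equation of the Legendre polynomials gives a relation between `B(r,s)`, `B(r-1,s+1)`,
`B(r-1,s)` and the `δ`'s. Together: up to multiples of `n` (with bounded denominators, and
denominators prime to `n`) `B(r,s)` depends only on `m = r + s`, and the values `β_m` satisfy
`(m+2) β_m + (m+1) β_{m-1} = -2 δ`. Hence `(m+2) β_m = m β_{m-2}` and `β_{2r} = 0`.
-/

set_option autoImplicit false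

namespace Pool.Agent.Results.MP_6f4751_nt.BoundedMultiplier

open Finset

/-- `R_{n,r} = ∑_{k=0}^n C(n+k,2k) C(2k,k) / (2k-2r-1)`. -/
def R (n r : ℕ) : ℚ :=
  ∑ k ∈ range (n + 1), (Nat.choose (n + k) (2 * k) : ℚ) * (Nat.choose (2 * k) k : ℚ) *
    (1 / (2 * (k : ℚ) - 2 * (r : ℚ) - 1))

/-- `S_{n,r} = ∑_{k=0}^{n-1} (2k+1) R_{k,r}²`. -/
def S (n r : ℕ) : ℚ := ∑ k ∈ range n, (2 * (k : ℚ) + 1) * R k r ^ 2

/-- `x ≡ 0 (mod n)` for a rational `x`: `x / n` is a fraction whose denominator is coprime to `n`. -/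
def ModZero (x : ℚ) (n : ℕ) : Prop := ∃ u v : ℤ, v ≠ 0 ∧ IsCoprime v (n : ℤ) ∧ x / n = u / v

/-- **Main result.** For every positive integer `r` there is a nonzero integer `a` such that
`a S_{n,r} ≡ 0 (mod n)` for all positive integers `n`. -/
theorem result : ∀ r : ℕ, 1 ≤ r → ∃ a : ℤ, a ≠ 0 ∧ ∀ n : ℕ, 1 ≤ n → ModZero (a * S n r) n := by
  intro r _
  obtain ⟨a, ha, h⟩ := Pool.Agent.Q278.RS.main r
  refine ⟨a, ha, fun n hn => ?_⟩
  obtain ⟨u, v, hc, hv, he⟩ := h n hn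
  refine ⟨u, v, hv, hc, ?_⟩
  have hS : S n r = Pool.Agent.Q278.RS.S (Pool.Agent.Q278.RS.R r) (Pool.Agent.Q278.RS.R r) n := by
    unfold S Pool.Agent.Q278.RS.S
    refine sum_congr rfl fun k _ => ?_
    have hR : R k r = Pool.Agent.Q278.RS.R (r : ℤ) k := by
      unfold R Pool.Agent.Q278.RS.R Pool.Agent.Q278.RS.F Pool.Agent.Q278.RS.c
      refine sum_congr rfl fun j _ => ?_
      push_cast
      ring
    rw [hR, pow_two]
  rw [hS]
  have hn0 : (n : ℚ) ≠ 0 := by exact_mod_cast (by omega : n ≠ 0)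
  have hv0 : (v : ℚ) ≠ 0 := by exact_mod_cast hv
  rw [div_eq_div_iff hn0 hv0]
  linear_combination he

end Pool.Agent.Results.MP_6f4751_nt.BoundedMultiplier
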